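import Mathlib

/-! Ideals of finite colength of polynomial rings: the number of generators, and the dimension of
the tangent space `Hom (I, B / I)`. -/

set_option autoImplicit false

universe u

namespace Pool.Agent.N100.EL

open MvPolynomial

section gens
variable {k : Type u} [Field k] {n : ℕ}

theorem exists_gens (Q : Ideal (MvPolynomial (Fin n) k))
    [Module.Finite k (MvPolynomial (Fin n) k ⧸ Q)] :
    ∃ g : Option (Fin n × Fin (Module.finrank k (MvPolynomial (Fin n) k ⧸ Q))) →
      MvPolynomial (Fin n) k, Ideal.span (Set.range g) = Q := by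
  classical
  set r := Module.finrank k (MvPolynomial (Fin n) k ⧸ Q) with hr
  let bq : Module.Basis (Fin r) k (MvPolynomial (Fin n) k ⧸ Q) := Module.finBasis k _
  choose β hβ using fun j => Ideal.Quotient.mk_surjective (bq j)
  let lin : (Fin r → k) →ₗ[k] MvPolynomial (Fin n) k := Fintype.linearCombination k β
  have hlin : ∀ a, lin a = ∑ l, a l • β l := fun a => by
    simp [lin, Fintype.linearCombination_apply]
  have hmk : ∀ f : MvPolynomial (Fin n) k,
      f - lin (fun l => bq.repr (Ideal.Quotient.mk Q f) l) ∈ Q := by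
    intro f
    rw [← Ideal.Quotient.eq, hlin]
    have h1 : Ideal.Quotient.mk Q (∑ l, (bq.repr (Ideal.Quotient.mk Q f) l) • β l) =
        ∑ l, (bq.repr (Ideal.Quotient.mk Q f) l) • bq l := by
      rw [map_sum]
      refine Finset.sum_congr rfl fun l _ => ?_
      rw [← hβ l]
      rfl
    rw [h1, bq.sum_repr]
  let g : Option (Fin n × Fin r) → MvPolynomial (Fin n) k := fun t =>
    match t with
    | none => 1 - lin (fun l => bq.repr (Ideal.Quotient.mk Q 1) l)
    | some (i, j) => X i * β j - lin (fun l => bq.repr (Ideal.Quotient.mk Q (X i * β j)) l)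
  refine ⟨g, le_antisymm ?_ ?_⟩
  · rw [Ideal.span_le]
    rintro _ ⟨t, rfl⟩
    rcases t with _ | ⟨i, j⟩
    · exact hmk 1
    · exact hmk _
  · have hex : ∀ f : MvPolynomial (Fin n) k, ∃ a : Fin r → k,
        f - lin a ∈ Ideal.span (Set.range g) := by
      intro f
      induction f using MvPolynomial.induction_on with
      | C a =>
        refine ⟨a • (fun l => bq.repr (Ideal.Quotient.mk Q 1) l), ?_⟩
        have h1 : g none ∈ Ideal.span (Set.range g) := Ideal.subset_span ⟨none, rfl⟩
        have h2 := Ideal.mul_mem_left _ (C a) h1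
        convert h2 using 1
        change _ = C a * (1 - lin (fun l => bq.repr (Ideal.Quotient.mk Q 1) l))
        rw [map_smul, mul_sub, mul_one, smul_eq_C_mul]
      | add f f' hf hf' =>
        obtain ⟨a, ha⟩ := hf
        obtain ⟨a', ha'⟩ := hf'
        refine ⟨a + a', ?_⟩
        rw [map_add, add_sub_add_comm]
        exact Ideal.add_mem _ ha ha'
      | mul_X f i hf =>
        obtain ⟨a, ha⟩ := hf
        refine ⟨∑ j, a j • (fun l => bq.repr (Ideal.Quotient.mk Q (X i * β j)) l), ?_⟩
        have h1 : ∀ j, g (some (i, j)) ∈ Ideal.span (Set.range g) := fun j =>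
          Ideal.subset_span ⟨some (i, j), rfl⟩
        have h2 : ∑ j, C (a j) * g (some (i, j)) ∈ Ideal.span (Set.range g) :=
          Ideal.sum_mem _ fun j _ => Ideal.mul_mem_left _ _ (h1 j)
        have h3 := Ideal.add_mem _ (Ideal.mul_mem_right (X i) _ ha) h2
        convert h3 using 1
        change _ = (f - lin a) * X i + ∑ j, C (a j) *
          (X i * β j - lin (fun l => bq.repr (Ideal.Quotient.mk Q (X i * β j)) l))
        rw [map_sum, sub_mul]
        have h4 : ∑ j, C (a j) *
          (X i * β j - lin (fun l => bq.repr (Ideal.Quotient.mk Q (X i * β j)) l)) =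
          lin a * X i - ∑ j, lin (a j • fun l => bq.repr (Ideal.Quotient.mk Q (X i * β j)) l) := by
          rw [← sub_eq_zero, hlin a, Finset.sum_mul, ← Finset.sum_sub_distrib,
            ← Finset.sum_sub_distrib]
          refine Finset.sum_eq_zero fun j _ => ?_
          rw [map_smul, smul_eq_C_mul, smul_eq_C_mul]
          ring
        rw [h4]
        ring
    intro f hf
    obtain ⟨a, ha⟩ := hex f
    have hle : Ideal.span (Set.range g) ≤ Q := by
      rw [Ideal.span_le]
      rintro _ ⟨t, rfl⟩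
      rcases t with _ | ⟨i, j⟩
      · exact hmk 1
      · exact hmk _
    have h1 : lin a ∈ Q := by
      have := Q.sub_mem hf (hle ha)
      simpa using this
    have h2 : ∑ l, a l • bq l = 0 := by
      have h3 : Ideal.Quotient.mk Q (lin a) = 0 := Ideal.Quotient.eq_zero_iff_mem.2 h1
      rw [← h3, hlin, map_sum]
      refine Finset.sum_congr rfl fun l _ => ?_
      rw [← hβ l]
      rfl
    have h4 : a = 0 := by
      funext l
      exact Fintype.linearIndependent_iff.1 bq.linearIndependent a h2 l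
    rw [h4, map_zero, sub_zero] at ha
    exact ha

end gens

section hom
variable {k : Type u} [Field k] {B : Type u} [CommRing B] [Algebra k B]

lemma exists_coprime_elt {ι : Type*} [Fintype ι] (Q : ι → Ideal B)
    (hcop : Pairwise fun i j => Q i ⊔ Q j = ⊤) (i : ι) :
    ∃ e : B, e - 1 ∈ Q i ∧ ∀ j, j ≠ i → e ∈ Q j := by
  classical
  have h1 : Q i ⊔ ⨅ j ∈ Finset.univ.erase i, Q j = ⊤ := by
    apply Ideal.sup_iInf_eq_top
    intro j hj
    exact hcop (Finset.ne_of_mem_erase hj).symm
  have h2 : (1 : B) ∈ Q i ⊔ ⨅ j ∈ Finset.univ.erase i, Q j := by rw [h1]; trivial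
  obtain ⟨a, ha, e, he, hae⟩ := Submodule.mem_sup.1 h2
  refine ⟨e, ?_, ?_⟩
  · rw [← hae]
    have : e - (a + e) = -a := by ring
    rw [this]
    exact (Q i).neg_mem ha
  · intro j hj
    rw [Submodule.mem_iInf] at he
    have := he j
    rw [Submodule.mem_iInf] at this
    exact this (Finset.mem_erase.2 ⟨hj, Finset.mem_univ _⟩)

theorem hom_bound {ι : Type*} [Fintype ι] (Q : ι → Ideal B)
    (hcop : Pairwise fun i j => Q i ⊔ Q j = ⊤) (I : Ideal B) (hI : I = ⨅ i, Q i)
    (κ : ι → Type) [∀ i, Fintype (κ i)] (g : ∀ i, κ i → B)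
    (hg : ∀ i, Ideal.span (Set.range (g i)) = Q i) [∀ i, Module.Finite k (B ⧸ Q i)] :
    Module.Finite k (I →ₗ[B] (B ⧸ I)) ∧
      Module.finrank k (I →ₗ[B] (B ⧸ I)) ≤
        ∑ i, Fintype.card (κ i) * Module.finrank k (B ⧸ Q i) := by
  classical
  choose e he1 he2 using exists_coprime_elt Q hcop
  have hle : ∀ i, I ≤ Q i := fun i => hI ▸ iInf_le _ i
  have hgQ : ∀ i a, g i a ∈ Q i := fun i a => hg i ▸ Ideal.subset_span ⟨a, rfl⟩
  have hmem : ∀ i, ∀ x ∈ Q i, e i * x ∈ I := by
    intro i x hx
    rw [hI, Submodule.mem_iInf]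
    intro j
    by_cases h : j = i
    · subst h
      exact Ideal.mul_mem_left _ _ hx
    · exact Ideal.mul_mem_right _ _ (he2 i j h)
  let T : (I →ₗ[B] (B ⧸ I)) →ₗ[k] (∀ i, κ i → B ⧸ Q i) :=
    { toFun := fun φ i a => Ideal.Quotient.factor (hle i) (φ ⟨e i * g i a, hmem i _ (hgQ i a)⟩)
      map_add' := by
        intro φ ψ
        ext i a
        simp
      map_smul' := by
        intro c φ
        ext i a
        simp only [LinearMap.smul_apply, RingHom.id_apply, Pi.smul_apply]
        obtain ⟨y, hy⟩ := Ideal.Quotient.mk_surjective (φ ⟨e i * g i a, hmem i _ (hgQ i a)⟩)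
        rw [← hy]
        rfl }
  have hT : ∀ φ i a, T φ i a =
      Ideal.Quotient.factor (hle i) (φ ⟨e i * g i a, hmem i _ (hgQ i a)⟩) := fun _ _ _ => rfl
  have hinj : Function.Injective T := by
    rw [injective_iff_map_eq_zero]
    intro φ hφ
    ext w
    rw [LinearMap.zero_apply]
    obtain ⟨y, hy⟩ := Ideal.Quotient.mk_surjective (φ w)
    rw [← hy]
    apply Ideal.Quotient.eq_zero_iff_mem.2
    rw [hI, Submodule.mem_iInf]
    intro i
    have h1 : ∀ x : B, ∀ hx : e i * x ∈ I, x ∈ Q i →
        Ideal.Quotient.factor (hle i) (φ ⟨e i * x, hx⟩) = 0 := by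
      intro x hx hxQ
      rw [← hg i] at hxQ
      obtain ⟨c, hc⟩ := (Ideal.mem_span_range_iff_exists_fun).1 hxQ
      have h2 : (⟨e i * x, hx⟩ : I) = ∑ a, c a • (⟨e i * g i a, hmem i _ (hgQ i a)⟩ : I) := by
        apply Subtype.ext
        rw [Submodule.coe_sum]
        change e i * x = ∑ a, c a • (e i * g i a)
        rw [← hc, Finset.mul_sum]
        refine Finset.sum_congr rfl fun a _ => ?_
        rw [smul_eq_mul]
        ring
      rw [h2, map_sum, map_sum]
      refine Finset.sum_eq_zero fun a _ => ?_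
      rw [map_smul, Algebra.smul_def, map_mul, ← hT, hφ]
      simp
    have h2 := h1 w.1 (hmem i _ (hle i w.2)) (hle i w.2)
    have h3 : (⟨e i * w.1, hmem i _ (hle i w.2)⟩ : I) = e i • w := rfl
    rw [h3, map_smul, ← hy, Algebra.smul_def, Ideal.Quotient.algebraMap_eq, ← map_mul,
      Ideal.Quotient.factor_mk, Ideal.Quotient.eq_zero_iff_mem] at h2
    have h4 : y = e i * y - (e i - 1) * y := by ring
    rw [h4]
    exact (Q i).sub_mem h2 (Ideal.mul_mem_right _ _ (he1 i))
  have hfin : Module.Finite k (I →ₗ[B] (B ⧸ I)) := Module.Finite.of_injective T hinj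
  refine ⟨hfin, ?_⟩
  refine (LinearMap.finrank_le_finrank_of_injective hinj).trans ?_
  rw [Module.finrank_pi_fintype]
  refine Finset.sum_le_sum fun i _ => ?_
  rw [Module.finrank_pi_fintype]
  simp

end hom

end Pool.Agent.N100.EL
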