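import Mathlib
import Pool.Agent.Helper226.VCFam

/-! Disjoint unions with a fixed subscheme, in charts of the Hilbert scheme. -/

set_option autoImplicit false

open scoped TensorProduct
open CategoryTheory AlgebraicGeometry

universe u

namespace Pool.Agent.N100.EL

open Pool.Agent.Helper226

variable {k : Type u} [Field k] {B : Type u} [CommRing B] [Algebra k B] {r s : ℕ}

/-- the basis of the disjoint union -/
def bas (e : B) (b1 : Fin r → B) (b2 : Fin s → B) : Fin (r + s) → B :=
  fun i => Sum.elim (fun i => e * b1 i) b2 (finSumFinEquiv.symm i)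

section
variable {R : Type u} [CommRing R] [Algebra k R]

/-- the joint coordinates -/
noncomputable def jc {b1 : Fin r → B} {b2 : Fin s → B} (c1 : Chart k b1 R) (c2 : Chart k b2 R) :
    R ⊗[k] B →ₗ[R] (Fin (r + s) → R) where
  toFun x i := Sum.elim (c1.L x) (c2.L x) (finSumFinEquiv.symm i)
  map_add' x y := by
    ext i
    obtain ⟨i, rfl⟩ := finSumFinEquiv.surjective i
    rcases i with i | i <;> simp
  map_smul' a x := by
    ext i
    obtain ⟨i, rfl⟩ := finSumFinEquiv.surjective i
    rcases i with i | i <;> simp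

lemma jc_apply {b1 : Fin r → B} {b2 : Fin s → B} (c1 : Chart k b1 R) (c2 : Chart k b2 R)
    (x : R ⊗[k] B) (i : Fin r ⊕ Fin s) :
    jc c1 c2 x (finSumFinEquiv i) = Sum.elim (c1.L x) (c2.L x) i := by
  change Sum.elim (c1.L x) (c2.L x) (finSumFinEquiv.symm (finSumFinEquiv i)) = _
  rw [Equiv.symm_apply_apply]

lemma jc_eq_zero {b1 : Fin r → B} {b2 : Fin s → B} (c1 : Chart k b1 R) (c2 : Chart k b2 R)
    (x : R ⊗[k] B) : jc c1 c2 x = 0 ↔ c1.L x = 0 ∧ c2.L x = 0 := by
  constructor
  · intro h
    constructor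
    · ext i
      have := congrFun h (finSumFinEquiv (Sum.inl i))
      rwa [jc_apply] at this
    · ext i
      have := congrFun h (finSumFinEquiv (Sum.inr i))
      rwa [jc_apply] at this
  · rintro ⟨h1, h2⟩
    ext i
    obtain ⟨i, rfl⟩ := finSumFinEquiv.surjective i
    rw [jc_apply, h1, h2]
    rcases i with i | i <;> simp

theorem exists_splice {b1 : Fin r → B} {b2 : Fin s → B} (c1 : Chart k b1 R) (c2 : Chart k b2 k)
    (e : B) (he : c2.q e = 0) (hu : IsUnit (tmat c1 (fun i => e * b1 i)).det) :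
    ∃ c' : Chart k (bas e b1 b2) R, ∀ (g : R →ₐ[k] k) (x : B),
      (c'.map g).q x = 0 ↔ (c1.map g).q x = 0 ∧ c2.q x = 0 := by
  classical
  set C2 := c2.map (Algebra.ofId k R) with hC2
  have hC2q : ∀ x j, C2.q x j = algebraMap k R (c2.q x j) := fun x j => rfl
  set L := jc c1 C2 with hL
  have he2 : ∀ y, c2.q (e * y) = 0 := by
    intro y
    have h1 : e ∈ c2.ker := (Chart.mem_ker _ _).2 he
    exact (Chart.mem_ker _ _).1 (Ideal.mul_mem_right y _ h1)
  let M : Matrix (Fin (r + s)) (Fin (r + s)) R := Matrix.of fun i j => L (1 ⊗ₜ bas e b1 b2 i) j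
  have hM : M = (Matrix.fromBlocks (tmat c1 (fun i => e * b1 i)) 0 (Matrix.of fun i j => c1.q (b2 i) j) 1).submatrix
      finSumFinEquiv.symm finSumFinEquiv.symm := by
    ext i j
    obtain ⟨i, rfl⟩ := finSumFinEquiv.surjective i
    obtain ⟨j, rfl⟩ := finSumFinEquiv.surjective j
    change L (1 ⊗ₜ bas e b1 b2 (finSumFinEquiv i)) (finSumFinEquiv j) = _
    rw [hL, jc_apply]
    have hb : bas e b1 b2 (finSumFinEquiv i) = Sum.elim (fun i => e * b1 i) b2 i := by
      unfold bas
      rw [Equiv.symm_apply_apply]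
    rw [hb, Matrix.submatrix_apply, Equiv.symm_apply_apply, Equiv.symm_apply_apply]
    rcases i with i | i <;> rcases j with j | j
    · simp [tmat]
    · simp [hC2q, he2]
    · simp [tmat]
    · simp only [Sum.elim_inr, Chart.L_tmul, one_smul, Matrix.fromBlocks_apply₂₂]
      rw [hC2q, c2.q_b, Matrix.one_apply, Pi.single_apply]
      by_cases h : i = j
      · subst h; simp
      · rw [if_neg (Ne.symm h), if_neg h, map_zero]
  have hdet : IsUnit M.det := by
    rw [hM, Matrix.det_submatrix_equiv_self, Matrix.det_fromBlocks_zero₁₂, Matrix.det_one, mul_one]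
    exact hu
  have hMi : M * M⁻¹ = 1 := Matrix.mul_nonsing_inv _ hdet
  have hMi' : M⁻¹ * M = 1 := Matrix.nonsing_inv_mul _ hdet
  let L' : R ⊗[k] B →ₗ[R] (Fin (r + s) → R) := (Matrix.vecMulLinear M⁻¹) ∘ₗ L
  have hL0 : ∀ x, L' x = 0 ↔ L x = 0 := by
    intro x
    simp only [L', LinearMap.coe_comp, Function.comp_apply, Matrix.vecMulLinear_apply]
    constructor
    · intro h0
      have := congrArg (fun v => Matrix.vecMul v M) h0
      simpa [Matrix.vecMul_vecMul, hMi'] using this
    · intro h0; simp [h0]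
  have hb : ∀ i, L' (1 ⊗ₜ bas e b1 b2 i) = Pi.single i 1 := by
    intro i
    simp only [L', LinearMap.coe_comp, Function.comp_apply, Matrix.vecMulLinear_apply]
    have h1 : L (1 ⊗ₜ bas e b1 b2 i) = Matrix.vecMul (Pi.single i 1) M := by
      ext j
      simp [M]
    rw [h1, Matrix.vecMul_vecMul, hMi, Matrix.vecMul_one]
  have hmul : ∀ x y, L' x = 0 → L' (x * y) = 0 := by
    intro x y hx
    rw [hL0, hL, jc_eq_zero] at hx ⊢
    exact ⟨c1.ideal.mul_mem_right y hx.1, C2.ideal.mul_mem_right y hx.2⟩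
  refine ⟨Chart.mk' (bas e b1 b2) L' hb hmul, fun g x => ?_⟩
  have hq : ∀ j, (Chart.mk' (bas e b1 b2) L' hb hmul).q x j = Matrix.vecMul (L (1 ⊗ₜ x)) M⁻¹ j :=
    fun j => rfl
  have h1 : ((Chart.mk' (bas e b1 b2) L' hb hmul).map g).q x =
      Matrix.vecMul (fun i => g (L (1 ⊗ₜ x) i)) (M⁻¹.map g) := by
    ext j
    rw [Chart.map_q, hq]
    simp [Matrix.vecMul, dotProduct, map_sum]
  have h2 : M⁻¹.map g * M.map g = 1 := by
    have := congrArg (fun A : Matrix _ _ R => A.map g) hMi'
    simp only [Matrix.map_mul] at this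
    rw [this]
    ext i j
    simp [Matrix.one_apply]
  have h3 : ((Chart.mk' (bas e b1 b2) L' hb hmul).map g).q x = 0 ↔
      (fun i => g (L (1 ⊗ₜ x) i)) = 0 := by
    rw [h1]
    constructor
    · intro h0
      have := congrArg (fun v => Matrix.vecMul v (M.map g)) h0
      simpa [Matrix.vecMul_vecMul, h2] using this
    · intro h0; simp [h0]
  rw [h3]
  constructor
  · intro h
    constructor
    · ext i
      have := congrFun h (finSumFinEquiv (Sum.inl i))
      simp only [hL, jc_apply] at this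
      simpa using this
    · ext i
      have := congrFun h (finSumFinEquiv (Sum.inr i))
      simp only [hL, jc_apply] at this
      simpa [hC2q] using this
  · rintro ⟨h4, h5⟩
    ext i
    obtain ⟨i, rfl⟩ := finSumFinEquiv.surjective i
    simp only [hL, jc_apply]
    rcases i with i | i
    · have := congrFun h4 i
      simpa using this
    · have := congrFun h5 i
      simp [hC2q, this]

end

end Pool.Agent.N100.EL
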