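import Mathlib
import Pool.Agent.N100.EL.Splice

/-! The open subset of the Hilbert scheme on which the disjoint union with a fixed subscheme lies
in a given open subset. -/

set_option autoImplicit false

open scoped TensorProduct
open CategoryTheory AlgebraicGeometry

universe u

namespace Pool.Agent.N100.EL

open Pool.Agent.Helper226

variable {k : Type u} [Field k] {B : Type u} [CommRing B] [Algebra k B]

lemma exists_chart {d : ℕ} (I : Ideal B) [Module.Finite k (B ⧸ I)]
    (h : Module.finrank k (B ⧸ I) = d) :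
    ∃ (b : Fin d → B) (c : Chart k b k), c.ker = I := by
  classical
  let bq : Module.Basis (Fin d) k (B ⧸ I) := Module.finBasisOfFinrankEq k _ h
  choose b hb using fun j => Ideal.Quotient.mk_surjective (bq j)
  let q : B →ₗ[k] (Fin d → k) := bq.equivFun.toLinearMap ∘ₗ (Ideal.Quotient.mkₐ k I).toLinearMap
  have hq : ∀ x, q x = bq.equivFun (Ideal.Quotient.mk I x) := fun x => rfl
  refine ⟨b, ⟨q, ?_, ?_⟩, ?_⟩
  · intro i
    rw [hq, hb]
    ext j
    simp [Pi.single_apply, eq_comm]
  · intro x y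
    have h1 : Ideal.Quotient.mk I x = ∑ j, q x j • Ideal.Quotient.mk I (b j) := by
      have := bq.sum_equivFun (Ideal.Quotient.mk I x)
      rw [← this]
      refine Finset.sum_congr rfl fun j _ => ?_
      rw [hb, hq]
    rw [hq (x * y), map_mul, h1, Finset.sum_mul, map_sum]
    refine Finset.sum_congr rfl fun j _ => ?_
    rw [smul_mul_assoc, map_smul, ← map_mul, hq (b j * y)]
  · ext x
    rw [Chart.mem_ker]
    change q x = 0 ↔ _
    rw [hq, LinearEquiv.map_eq_zero_iff, Ideal.Quotient.eq_zero_iff_mem]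

lemma chartι_zp_eq_of_ker_eq {d : ℕ} {b b' : Fin d → B} {c : Chart k b k} {c' : Chart k b' k}
    (h : c.ker = c'.ker) :
    chartι k (Idx.single b) (zp c) = chartι k (Idx.single b') (zp c') := by
  rw [← mem_range_mor_iff, ← mor_eq_of_ideal_eq c c' (Chart.ideal_eq_of_ker_eq h),
    mem_range_mor_iff]

theorem splice_open {r s : ℕ} (U : Set (HilbS k B (r + s))) (hU : IsOpen U)
    {b : Fin (r + s) → B} (c : Chart k b k) (hc : chartι k (Idx.single b) (zp c) ∈ U)
    (Q J : Ideal B) (hQJ : c.ker = Q ⊓ J) (hcop : Q ⊔ J = ⊤)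
    [Module.Finite k (B ⧸ Q)] (hr : Module.finrank k (B ⧸ Q) = r)
    [Module.Finite k (B ⧸ J)] (hs : Module.finrank k (B ⧸ J) = s) :
    ∃ V : Set (HilbS k B r), IsOpen V ∧
      (∃ (b1 : Fin r → B) (c1 : Chart k b1 k), c1.ker = Q ∧
        chartι k (Idx.single b1) (zp c1) ∈ V) ∧
      ∀ (b1 : Fin r → B) (c1 : Chart k b1 k), chartι k (Idx.single b1) (zp c1) ∈ V →
        c1.ker ⊔ J = ⊤ ∧ ∃ (b' : Fin (r + s) → B) (c' : Chart k b' k),
          chartι k (Idx.single b') (zp c') ∈ U ∧ c'.ker = c1.ker ⊓ J := by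
  classical
  obtain ⟨b1, c1, hc1⟩ := exists_chart Q hr
  obtain ⟨b2, c2, hc2⟩ := exists_chart J hs
  obtain ⟨e, he1, heJ⟩ : ∃ e : B, e - 1 ∈ Q ∧ e ∈ J := by
    have h2 : (1 : B) ∈ Q ⊔ J := by rw [hcop]; trivial
    obtain ⟨a, ha, e, he, hae⟩ := Submodule.mem_sup.1 h2
    refine ⟨e, ?_, he⟩
    rw [← hae]
    have : e - (a + e) = -a := by ring
    rw [this]
    exact Q.neg_mem ha
  have hec2 : c2.q e = 0 := (Chart.mem_ker _ _).1 (hc2 ▸ heJ)
  set h : AR k b1 := (tmat (uc k b1) (fun i => e * b1 i)).det with hh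
  have hmaph : ∀ {R : Type u} [CommRing R] [Algebra k R] (φ : AR k b1 →ₐ[k] R),
      φ h = (tmat ((uc k b1).map φ) (fun i => e * b1 i)).det := by
    intro R _ _ φ
    rw [tmat_map, hh, AlgHom.map_det]
    rfl
  let Rh := Localization.Away h
  let loc : AR k b1 →ₐ[k] Rh := IsScalarTower.toAlgHom k (AR k b1) Rh
  have hloc : IsUnit (loc h) := IsLocalization.Away.algebraMap_isUnit h
  obtain ⟨c', hc'⟩ := exists_splice ((uc k b1).map loc) c2 e hec2 (by rw [← hmaph]; exact hloc)
  let j : Spec (CommRingCat.of Rh) ⟶ Spec (CommRingCat.of (AR k b1)) :=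
    Spec.map (CommRingCat.ofHom (algebraMap (AR k b1) Rh))
  have hj : IsOpenImmersion j := inferInstance
  let ψ : Spec (CommRingCat.of Rh) ⟶ HilbS k B r := j ≫ chartι k (Idx.single b1)
  have hψ : IsOpenImmersion ψ := inferInstance
  -- lifting of homomorphisms
  have hlift : ∀ g0 : AR k b1 →ₐ[k] k, g0 h ≠ 0 → ∃ g : Rh →ₐ[k] k, g.comp loc = g0 := by
    intro g0 hg0
    refine ⟨IsLocalization.liftAlgHom (M := Submonoid.powers h) (f := g0) ?_, ?_⟩
    · rintro ⟨_, n, rfl⟩
      simpa using (IsUnit.mk0 _ hg0).pow n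
    · ext x
      simp [loc]
  have hpt : ∀ (g : Rh →ₐ[k] k) (y : Spec (CommRingCat.of Rh)), y.asIdeal = RingHom.ker g →
      mor c' y = chartι k (Idx.single (bas e b1 b2)) (zp (c'.map g)) := by
    intro g y hy
    rw [← mem_range_mor_iff]
    exact mor_point c' g y hy
  have hkerg : ∀ (g : Rh →ₐ[k] k), (c'.map g).ker = ((uc k b1).map (g.comp loc)).ker ⊓ J := by
    intro g
    ext x
    rw [Chart.mem_ker, hc', Chart.map_map, Ideal.mem_inf, Chart.mem_ker, ← hc2, Chart.mem_ker]
  have hmaxg : ∀ g : Rh →ₐ[k] k, (RingHom.ker g).IsMaximal := fun g =>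
    RingHom.ker_isMaximal_of_surjective g (fun a => ⟨algebraMap k _ a, g.commutes a⟩)
  refine ⟨ψ '' (mor c' ⁻¹' U), ?_, ?_, ?_⟩
  · exact ψ.isOpenEmbedding.isOpenMap _ (hU.preimage (mor c').continuous)
  · refine ⟨b1, c1, hc1, ?_⟩
    have h1 : clf c1 h ≠ 0 := by
      rw [hmaph, uc_map_clf]
      have h2 : tmat c1 (fun i => e * b1 i) = 1 := by
        ext i j
        have h3 : c1.q (e * b1 i) = c1.q (b1 i) := by
          have h4 : c1.q ((e - 1) * b1 i) = 0 := by
            rw [← Chart.mem_ker, hc1]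
            exact Ideal.mul_mem_right _ _ he1
          rw [sub_mul, one_mul, map_sub, sub_eq_zero] at h4
          exact h4
        change c1.q (e * b1 i) j = _
        rw [h3, c1.q_b, Matrix.one_apply, Pi.single_apply]
        by_cases hij : i = j
        · subst hij; simp
        · rw [if_neg (Ne.symm hij), if_neg hij]
      rw [h2, Matrix.det_one]
      exact one_ne_zero
    obtain ⟨g, hg⟩ := hlift _ h1
    let y : Spec (CommRingCat.of Rh) := (⟨RingHom.ker g, (hmaxg g).isPrime⟩ : PrimeSpectrum Rh)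
    have hy : y.asIdeal = RingHom.ker g := rfl
    refine ⟨y, ?_, ?_⟩
    · change mor c' y ∈ U
      rw [hpt g y hy]
      have h5 : (c'.map g).ker = c.ker := by
        rw [hkerg, hg, uc_map_clf, hc1, hQJ]
      rw [chartι_zp_eq_of_ker_eq h5]
      exact hc
    · change (j ≫ chartι k (Idx.single b1)) y = _
      rw [Scheme.Hom.comp_apply]
      congr 1
      apply PrimeSpectrum.ext
      change Ideal.comap (algebraMap (AR k b1) Rh) y.asIdeal = RingHom.ker (clf c1)
      rw [hy, ← hg]
      rfl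
  · rintro b3 c3 ⟨y, hyU, hy⟩
    have hx : chartι k (Idx.single b1) (j y) ∈ (hilb k B r).locus (fun I => I = c3.ker) := by
      have h6 : chartι k (Idx.single b1) (j y) = chartι k (Idx.single b3) (zp c3) := hy
      rw [h6]
      exact chartι_zp_mem_locus c3 _ rfl
    obtain ⟨c4, hc4, hjy⟩ := exists_chart_in _ _ hx
    have hn : clf c4 h ≠ 0 := by
      intro h0
      have h7 : h ∈ (j y).asIdeal := by
        rw [hjy, zp_asIdeal]
        exact RingHom.mem_ker.2 h0
      have h8 : algebraMap (AR k b1) Rh h ∈ y.asIdeal := h7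
      exact y.isPrime.ne_top (Ideal.eq_top_of_isUnit_mem _ h8 hloc)
    obtain ⟨g, hg⟩ := hlift _ hn
    have hyg : y.asIdeal = RingHom.ker g := by
      let y' : Spec (CommRingCat.of Rh) := (⟨RingHom.ker g, (hmaxg g).isPrime⟩ : PrimeSpectrum Rh)
      have h9 : j y = j y' := by
        apply PrimeSpectrum.ext
        rw [hjy, zp_asIdeal]
        change _ = Ideal.comap (algebraMap (AR k b1) Rh) (RingHom.ker g)
        rw [← hg]
        rfl
      have h10 : y = y' := j.isOpenEmbedding.injective h9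
      rw [h10]
    constructor
    · rw [← hc4]
      have hu : IsUnit (tmat c4 (fun i => e * b1 i)).det := by
        rw [hmaph, uc_map_clf] at hn
        exact IsUnit.mk0 _ hn
      set M := tmat c4 (fun i => e * b1 i) with hM
      have hMi' : M⁻¹ * M = 1 := Matrix.nonsing_inv_mul _ hu
      let v : Fin r → k := Matrix.vecMul (c4.q 1) M⁻¹
      have hv : Matrix.vecMul v M = c4.q 1 := by
        change Matrix.vecMul (Matrix.vecMul (c4.q 1) M⁻¹) M = _
        rw [Matrix.vecMul_vecMul, hMi', Matrix.vecMul_one]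
      have h11 : (1 : B) - e * ∑ i, v i • b1 i ∈ c4.ker := by
        rw [Chart.mem_ker, map_sub, Finset.mul_sum, map_sum, sub_eq_zero, ← hv]
        ext l
        simp [Matrix.vecMul, dotProduct, hM, tmat]
      rw [Ideal.eq_top_iff_one]
      have h12 : (1 : B) = (1 - e * ∑ i, v i • b1 i) + e * ∑ i, v i • b1 i := by ring
      rw [h12]
      exact Submodule.add_mem_sup h11 (Ideal.mul_mem_right _ _ heJ)
    · refine ⟨_, c'.map g, ?_, ?_⟩
      · rw [← hpt g y hyg]
        exact hyU
      · rw [hkerg, hg, uc_map_clf, hc4]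

end Pool.Agent.N100.EL
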