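import Mathlib

/-! Decompositions of ideals of finite colength into coprime pieces. -/

set_option autoImplicit false

universe u

namespace Pool.Agent.N100.EL

variable {k : Type u} [Field k] {B : Type u} [CommRing B] [Algebra k B]

/-- an Artinian ring with more than one maximal ideal has a nontrivial idempotent; here in terms
of an ideal of finite colength -/
theorem split_ideal (W : Ideal B) [Module.Finite k (B ⧸ W)] (hW : W ≠ ⊤)
    (hrad : ¬ W.radical.IsMaximal) :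
    ∃ W1 W2 : Ideal B, W1 ≠ ⊤ ∧ W2 ≠ ⊤ ∧ W1 ⊔ W2 = ⊤ ∧ W1 ⊓ W2 = W := by
  classical
  have hart : IsArtinianRing (B ⧸ W) := IsArtinianRing.of_finite k _
  obtain ⟨m, hm, hWm⟩ := Ideal.exists_le_maximal W hW
  let π := Ideal.Quotient.mk W
  have hπ : Function.Surjective π := Ideal.Quotient.mk_surjective
  set m' := m.map π with hm'
  have hcomap : m'.comap π = m := by
    rw [hm', Ideal.comap_map_of_surjective π hπ]
    have : Ideal.comap π ⊥ = W := by
      ext x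
      rw [Ideal.mem_comap, Ideal.mem_bot, Ideal.Quotient.eq_zero_iff_mem]
    rw [this, sup_eq_left.2 hWm]
  obtain ⟨N, hN⟩ := IsArtinian.monotone_stabilizes (R := B ⧸ W) (M := B ⧸ W)
    ⟨(m' ^ ·), @Ideal.pow_le_pow_right _ _ _⟩
  have hN1 : m' ^ N = m' ^ (N + 1) := hN (N + 1) (by omega)
  have hN2 : m' ^ (N + 1) = m' ^ (2 * (N + 1)) :=
    hN1.symm.trans (hN (2 * (N + 1)) (by omega))
  have hidem : IsIdempotentElem (m' ^ (N + 1)) := by
    unfold IsIdempotentElem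
    rw [← pow_add, ← two_mul]
    exact hN2.symm
  obtain ⟨e, he, hspan⟩ := (Ideal.isIdempotentElem_iff_of_fg _
    ((isNoetherianRing_iff_ideal_fg _).1 inferInstance _)).1 hidem
  have hspan' : m' ^ (N + 1) = Ideal.span {e} := hspan
  obtain ⟨x, rfl⟩ := hπ e
  have hem : π x ∈ m' := by
    have : π x ∈ m' ^ (N + 1) := by rw [hspan']; exact Ideal.mem_span_singleton_self _
    exact Ideal.pow_le_self (by omega) this
  have hxm : x ∈ m := by rw [← hcomap]; exact hem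
  have hxW : x * (1 - x) ∈ W := by
    rw [← Ideal.Quotient.eq_zero_iff_mem, map_mul, map_sub, map_one, mul_sub, mul_one, he.eq,
      sub_self]
  have hx0 : x ∉ W := by
    intro hx
    apply hrad
    have h1 : m' ^ (N + 1) = ⊥ := by
      rw [hspan']
      have : π x = 0 := Ideal.Quotient.eq_zero_iff_mem.2 hx
      rw [this, Ideal.span_singleton_eq_bot.2 rfl]
    have h2 : W.radical = m := by
      apply le_antisymm
      · exact (hm.isPrime.radical_le_iff).2 hWm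
      · intro y hy
        refine ⟨N + 1, ?_⟩
        rw [← Ideal.Quotient.eq_zero_iff_mem, map_pow, ← Ideal.mem_bot, ← h1]
        exact Ideal.pow_mem_pow (Ideal.mem_map_of_mem π hy) _
    rw [h2]
    exact hm
  refine ⟨W ⊔ Ideal.span {x}, W ⊔ Ideal.span {1 - x}, ?_, ?_, ?_, ?_⟩
  · intro htop
    apply hm.ne_top
    rw [← top_le_iff, ← htop]
    exact sup_le hWm ((Ideal.span_singleton_le_iff_mem _).2 hxm)
  · intro htop
    apply hx0
    have h1 : (1 : B) ∈ W ⊔ Ideal.span {1 - x} := by rw [htop]; trivial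
    obtain ⟨w, hw, z, hz, hwz⟩ := Submodule.mem_sup.1 h1
    obtain ⟨a, rfl⟩ := Ideal.mem_span_singleton'.1 hz
    have h2 : x = x * w + a * (x * (1 - x)) := by
      calc x = x * 1 := (mul_one x).symm
        _ = x * (w + a * (1 - x)) := by rw [hwz]
        _ = _ := by ring
    rw [h2]
    exact W.add_mem (Ideal.mul_mem_left _ _ hw) (Ideal.mul_mem_left _ _ hxW)
  · rw [Ideal.eq_top_iff_one]
    have h1 : x + (1 - x) ∈ (W ⊔ Ideal.span {x}) ⊔ (W ⊔ Ideal.span {1 - x}) :=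
      Submodule.add_mem_sup (Ideal.mem_sup_right (Ideal.mem_span_singleton_self _))
        (Ideal.mem_sup_right (Ideal.mem_span_singleton_self _))
    rwa [add_sub_cancel] at h1
  · apply le_antisymm
    · rintro y ⟨hy1, hy2⟩
      have h1 : y * (1 - x) ∈ W := by
        obtain ⟨w, hw, z, hz, hwz⟩ := Submodule.mem_sup.1 hy1
        obtain ⟨a, rfl⟩ := Ideal.mem_span_singleton'.1 hz
        rw [← hwz]
        have : (w + a * x) * (1 - x) = w * (1 - x) + a * (x * (1 - x)) := by ring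
        rw [this]
        exact W.add_mem (Ideal.mul_mem_right _ _ hw) (Ideal.mul_mem_left _ _ hxW)
      have h2 : y * x ∈ W := by
        obtain ⟨w, hw, z, hz, hwz⟩ := Submodule.mem_sup.1 hy2
        obtain ⟨a, rfl⟩ := Ideal.mem_span_singleton'.1 hz
        rw [← hwz]
        have : (w + a * (1 - x)) * x = w * x + a * (x * (1 - x)) := by ring
        rw [this]
        exact W.add_mem (Ideal.mul_mem_right _ _ hw) (Ideal.mul_mem_left _ _ hxW)
      have h3 : y = y * (1 - x) + y * x := by ring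
      rw [h3]
      exact W.add_mem h1 h2
    · exact le_inf le_sup_left le_sup_left

/-- `I` is the intersection of the pairwise coprime proper ideals of the finite set `𝒬` -/
def IsDec (I : Ideal B) (𝒬 : Finset (Ideal B)) : Prop :=
  (∀ Q ∈ 𝒬, Q ≠ ⊤) ∧ ((𝒬 : Set (Ideal B)).Pairwise fun P Q => P ⊔ Q = ⊤) ∧ 𝒬.inf id = I

lemma finite_of_le {I J : Ideal B} [Module.Finite k (B ⧸ I)] (h : I ≤ J) :
    Module.Finite k (B ⧸ J) :=
  Module.Finite.of_surjective (Ideal.Quotient.factorₐ k h).toLinearMap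
    (Ideal.Quotient.factor_surjective h)

lemma finrank_inf_prod (Q J : Ideal B) (h : Q ⊔ J = ⊤) [Module.Finite k (B ⧸ Q)]
    [Module.Finite k (B ⧸ J)] :
    Module.finrank k (B ⧸ (Q ⊓ J)) = Module.finrank k (B ⧸ Q) + Module.finrank k (B ⧸ J) := by
  let e := Ideal.quotientInfEquivQuotientProd Q J (Ideal.isCoprime_iff_sup_eq.2 h)
  let e' : (B ⧸ (Q ⊓ J)) ≃ₗ[k] (B ⧸ Q) × (B ⧸ J) :=
    { e with
      map_smul' := by
        intro c x
        obtain ⟨y, rfl⟩ := Ideal.Quotient.mk_surjective x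
        rfl }
  rw [e'.finrank_eq, Module.finrank_prod]

lemma finrank_dec {ι : Type*} [Fintype ι] (Q : ι → Ideal B)
    (hcop : Pairwise fun i j => Q i ⊔ Q j = ⊤) [∀ i, Module.Finite k (B ⧸ Q i)] :
    Module.finrank k (B ⧸ ⨅ i, Q i) = ∑ i, Module.finrank k (B ⧸ Q i) := by
  let e := Ideal.quotientInfRingEquivPiQuotient Q
    (fun i j hij => Ideal.isCoprime_iff_sup_eq.2 (hcop hij))
  let e' : (B ⧸ ⨅ i, Q i) ≃ₗ[k] ∀ i, B ⧸ Q i :=
    { e with
      map_smul' := by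
        intro c x
        obtain ⟨y, rfl⟩ := Ideal.Quotient.mk_surjective x
        rfl }
  rw [e'.finrank_eq, Module.finrank_pi_fintype]

lemma IsDec.iInf {I : Ideal B} {𝒬 : Finset (Ideal B)} (h : IsDec I 𝒬) :
    I = ⨅ Q : {Q // Q ∈ 𝒬}, Q.1 := by
  rw [← h.2.2, Finset.inf_eq_iInf, iInf_subtype]
  rfl

lemma IsDec.pairwise {I : Ideal B} {𝒬 : Finset (Ideal B)} (h : IsDec I 𝒬) :
    Pairwise fun P Q : {Q // Q ∈ 𝒬} => P.1 ⊔ Q.1 = ⊤ := by
  intro P Q hPQ
  exact h.2.1 P.2 Q.2 (fun h => hPQ (Subtype.ext h))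

lemma IsDec.le {I : Ideal B} {𝒬 : Finset (Ideal B)} (h : IsDec I 𝒬) {Q : Ideal B} (hQ : Q ∈ 𝒬) :
    I ≤ Q := by
  rw [← h.2.2]
  exact Finset.inf_le hQ

lemma IsDec.finrank_eq {I : Ideal B} {𝒬 : Finset (Ideal B)} (h : IsDec I 𝒬)
    [Module.Finite k (B ⧸ I)] :
    Module.finrank k (B ⧸ I) = ∑ Q ∈ 𝒬, Module.finrank k (B ⧸ Q) := by
  have hf : ∀ Q : {Q // Q ∈ 𝒬}, Module.Finite k (B ⧸ Q.1) := fun Q => finite_of_le (h.le Q.2)
  have h1 := finrank_dec (k := k) (fun Q : {Q // Q ∈ 𝒬} => Q.1) h.pairwise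
  rw [← h.iInf] at h1
  rw [h1, Finset.sum_coe_sort 𝒬 (fun Q => Module.finrank k (B ⧸ Q))]

lemma IsDec.card_le {I : Ideal B} {𝒬 : Finset (Ideal B)} (h : IsDec I 𝒬)
    [Module.Finite k (B ⧸ I)] : 𝒬.card ≤ Module.finrank k (B ⧸ I) := by
  rw [h.finrank_eq, Finset.card_eq_sum_ones]
  refine Finset.sum_le_sum fun Q hQ => ?_
  have hf : Module.Finite k (B ⧸ Q) := finite_of_le (h.le hQ)
  have hn : Nontrivial (B ⧸ Q) := Ideal.Quotient.nontrivial_iff.2 (h.1 Q hQ)
  exact Module.finrank_pos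

lemma IsDec.self {I : Ideal B} (h : I ≠ ⊤) : IsDec I {I} := by
  refine ⟨?_, ?_, ?_⟩
  · intro Q hQ
    rw [Finset.mem_singleton] at hQ
    rw [hQ]
    exact h
  · simp
  · simp

open Classical in
/-- the intersection of the other pieces -/
noncomputable def rest (𝒬 : Finset (Ideal B)) (Q : Ideal B) : Ideal B := (𝒬.erase Q).inf id

lemma rest_inf {I : Ideal B} {𝒬 : Finset (Ideal B)} (h : IsDec I 𝒬) {Q : Ideal B} (hQ : Q ∈ 𝒬) :
    Q ⊓ rest 𝒬 Q = I := by
  classical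
  unfold rest
  rw [← h.2.2]
  conv_rhs => rw [← Finset.insert_erase hQ]
  rw [Finset.inf_insert, id_eq]

lemma rest_sup {I : Ideal B} {𝒬 : Finset (Ideal B)} (h : IsDec I 𝒬) {Q : Ideal B} (hQ : Q ∈ 𝒬) :
    Q ⊔ rest 𝒬 Q = ⊤ := by
  classical
  unfold rest
  rw [Finset.inf_eq_iInf]
  apply Ideal.sup_iInf_eq_top
  intro P hP
  exact h.2.1 hQ (Finset.mem_of_mem_erase hP) (Finset.ne_of_mem_erase hP).symm

lemma IsDec.refine {I : Ideal B} {𝒬 : Finset (Ideal B)} (h : IsDec I 𝒬) {Q : Ideal B}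
    (hQ : Q ∈ 𝒬) {W W1 W2 : Ideal B} (hWJ : W ⊔ rest 𝒬 Q = ⊤) (h1 : W1 ≠ ⊤) (h2 : W2 ≠ ⊤)
    (h12 : W1 ⊔ W2 = ⊤) (hW : W1 ⊓ W2 = W) :
    ∃ 𝒬' : Finset (Ideal B), IsDec (W ⊓ rest 𝒬 Q) 𝒬' ∧ 𝒬'.card = 𝒬.card + 1 := by
  classical
  have hW1 : W ≤ W1 := hW ▸ inf_le_left
  have hW2 : W ≤ W2 := hW ▸ inf_le_right
  have hrest : ∀ P ∈ 𝒬.erase Q, rest 𝒬 Q ≤ P := fun P hP => Finset.inf_le hP
  have hs1 : ∀ P ∈ 𝒬.erase Q, W1 ⊔ P = ⊤ := fun P hP =>
    top_le_iff.1 (hWJ ▸ sup_le_sup hW1 (hrest P hP))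
  have hs2 : ∀ P ∈ 𝒬.erase Q, W2 ⊔ P = ⊤ := fun P hP =>
    top_le_iff.1 (hWJ ▸ sup_le_sup hW2 (hrest P hP))
  have hn1 : W1 ∉ 𝒬.erase Q := by
    intro hmem
    have := hs1 W1 hmem
    rw [sup_idem] at this
    exact h1 this
  have hn2 : W2 ∉ 𝒬.erase Q := by
    intro hmem
    have := hs2 W2 hmem
    rw [sup_idem] at this
    exact h2 this
  have hne : W1 ≠ W2 := by
    rintro rfl
    rw [sup_idem] at h12
    exact h1 h12
  refine ⟨insert W1 (insert W2 (𝒬.erase Q)), ⟨?_, ?_, ?_⟩, ?_⟩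
  · intro P hP
    rw [Finset.mem_insert, Finset.mem_insert] at hP
    rcases hP with rfl | rfl | hP
    · exact h1
    · exact h2
    · exact h.1 P (Finset.mem_of_mem_erase hP)
  · intro P hP P' hP' hPP
    rw [Finset.mem_coe, Finset.mem_insert, Finset.mem_insert] at hP hP'
    rcases hP with rfl | rfl | hP <;> rcases hP' with rfl | rfl | hP'
    · exact absurd rfl hPP
    · exact h12
    · exact hs1 _ hP'
    · rw [sup_comm]
      exact h12
    · exact absurd rfl hPP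
    · exact hs2 _ hP'
    · rw [sup_comm]
      exact hs1 _ hP
    · rw [sup_comm]
      exact hs2 _ hP
    · exact h.2.1 (Finset.mem_of_mem_erase hP) (Finset.mem_of_mem_erase hP') hPP
  · rw [Finset.inf_insert, Finset.inf_insert, ← inf_assoc, id_eq, id_eq, hW]
    rfl
  · rw [Finset.card_insert_of_notMem, Finset.card_insert_of_notMem hn2,
      Finset.card_erase_of_mem hQ]
    · have : 0 < 𝒬.card := Finset.card_pos.2 ⟨Q, hQ⟩
      omega
    · rw [Finset.mem_insert, not_or]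
      exact ⟨hne, hn1⟩

end Pool.Agent.N100.EL
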