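import Mathlib
import Pool.Agent.N100.EL.Open
import Pool.Agent.N100.EL.Split

/-! If the component of a piece is not elementary then the point can be moved inside a given open
subset to a point with more pieces. -/

set_option autoImplicit false

open scoped TensorProduct
open CategoryTheory AlgebraicGeometry

universe u

namespace Pool.Agent.N100.EL

open Pool.Agent.Helper226

variable {k : Type u} [Field k] {B : Type u} [CommRing B] [Algebra k B]

/-- A set `C` of points of the Hilbert scheme is general-punctual: the subschemes corresponding to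
the `k`-points in some nonempty open part of `C` are supported at one point. -/
def GenPunctual {d : ℕ} (𝓗 : HilbertScheme k B d) (C : Set 𝓗.H) : Prop :=
  ∃ V : Set 𝓗.H, IsOpen V ∧ (V ∩ C).Nonempty ∧
    ∀ f : PointsOver k 𝓗.H 𝓗.s k, Set.range f.1 ⊆ V ∩ C → (𝓗.idealOf f).radical.IsMaximal

lemma finite_quot {d : ℕ} {b : Fin d → B} (c : Chart k b k) : Module.Finite k (B ⧸ c.ker) :=
  Module.Finite.equiv c.quotEquiv.symm

lemma finrank_quot {d : ℕ} {b : Fin d → B} (c : Chart k b k) :
    Module.finrank k (B ⧸ c.ker) = d := by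
  rw [c.quotEquiv.finrank_eq, Module.finrank_fin_fun]

lemma idealOf_eq {d : ℕ} {b : Fin d → B} {c : Chart k b k}
    (f : PointsOver k (hilb k B d).H (hilb k B d).s k)
    (h : ((hilb k B d).Φ k f).1 = c.ideal) : (hilb k B d).idealOf f = c.ker := by
  unfold HilbertScheme.idealOf
  rw [h]
  rfl

theorem step [Algebra.FiniteType k B] {d : ℕ} (U : Set (HilbS k B d)) (hU : IsOpen U)
    {b : Fin d → B} (c : Chart k b k) (hc : chartι k (Idx.single b) (zp c) ∈ U)
    (𝒬 : Finset (Ideal B)) (h𝒬 : IsDec c.ker 𝒬) (Q : Ideal B) (hQ : Q ∈ 𝒬)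
    (hno : ∀ C ∈ irreducibleComponents (HilbS k B (Module.finrank k (B ⧸ Q))),
      ¬ GenPunctual (hilb k B (Module.finrank k (B ⧸ Q))) C) :
    ∃ (b' : Fin d → B) (c' : Chart k b' k) (𝒬' : Finset (Ideal B)),
      chartι k (Idx.single b') (zp c') ∈ U ∧ IsDec c'.ker 𝒬' ∧ 𝒬'.card = 𝒬.card + 1 := by
  classical
  have hfin := finite_quot c
  have hfQ : Module.Finite k (B ⧸ Q) := finite_of_le (h𝒬.le hQ)
  have hleJ : c.ker ≤ rest 𝒬 Q := by
    rw [← rest_inf h𝒬 hQ]
    exact inf_le_right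
  have hfJ : Module.Finite k (B ⧸ rest 𝒬 Q) := finite_of_le hleJ
  have hdim : d = Module.finrank k (B ⧸ Q) + Module.finrank k (B ⧸ rest 𝒬 Q) := by
    rw [← finrank_inf_prod Q (rest 𝒬 Q) (rest_sup h𝒬 hQ), rest_inf h𝒬 hQ, finrank_quot]
  have hn : Nontrivial (B ⧸ Q) := Ideal.Quotient.nontrivial_iff.2 (h𝒬.1 Q hQ)
  have hpos : 0 < Module.finrank k (B ⧸ Q) := Module.finrank_pos
  clear hfin
  subst hdim
  obtain ⟨V, hV, ⟨b1, c1, hc1, hc1V⟩, hprop⟩ := splice_open U hU c hc Q (rest 𝒬 Q)
    (rest_inf h𝒬 hQ).symm (rest_sup h𝒬 hQ) rfl rfl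
  set x := chartι k (Idx.single b1) (zp c1) with hx
  have h1 := hno (irreducibleComponent x) (irreducibleComponent_mem_irreducibleComponents x)
  unfold GenPunctual at h1
  push Not at h1
  obtain ⟨f, hf, hmax⟩ := h1 V hV ⟨x, hc1V, mem_irreducibleComponent⟩
  obtain ⟨b3, c3, hf3, hΦ⟩ := exists_chart_of_field f
  rw [idealOf_eq f hΦ] at hmax
  have hc3V : chartι k (Idx.single b3) (zp c3) ∈ V := by
    have h2 : chartι k (Idx.single b3) (zp c3) ∈ Set.range (mor c3) :=
      (mem_range_mor_iff c3 _).2 rfl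
    rw [← hf3] at h2
    exact (hf h2).1
  obtain ⟨hWJ, b', c', hc'U, hker⟩ := hprop b3 c3 hc3V
  have hfW := finite_quot c3
  have hWtop : c3.ker ≠ ⊤ := by
    intro htop
    have h3 := finrank_quot c3
    have h4 : Subsingleton (B ⧸ c3.ker) := Ideal.Quotient.subsingleton_iff.2 htop
    rw [Module.finrank_zero_of_subsingleton] at h3
    omega
  obtain ⟨W1, W2, hW1, hW2, hsup, hinf⟩ := split_ideal (k := k) c3.ker hWtop hmax
  obtain ⟨𝒬', hdec, hcard⟩ := h𝒬.refine hQ hWJ hW1 hW2 hsup hinf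
  refine ⟨b', c', 𝒬', hc'U, ?_, hcard⟩
  rw [hker]
  exact hdec

/-- If no component of `Hilb_r`, `R < r ≤ d`, is elementary then every nonempty open subset of
`Hilb_d` contains a point all of whose pieces have length at most `R`. -/
theorem exists_small [Algebra.FiniteType k B] {d : ℕ} (U : Set (HilbS k B d)) (hU : IsOpen U)
    {b : Fin d → B} (c : Chart k b k) (hc : chartι k (Idx.single b) (zp c) ∈ U) (R : ℕ)
    (hd : 0 < d)
    (hno : ∀ r, R < r → r ≤ d → ∀ C ∈ irreducibleComponents (HilbS k B r),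
      ¬ GenPunctual (hilb k B r) C) :
    ∃ (b' : Fin d → B) (c' : Chart k b' k) (𝒬' : Finset (Ideal B)),
      chartι k (Idx.single b') (zp c') ∈ U ∧ IsDec c'.ker 𝒬' ∧
        ∀ Q ∈ 𝒬', Module.finrank k (B ⧸ Q) ≤ R := by
  by_contra hcon
  push Not at hcon
  have key : ∀ N : ℕ, ∃ (b' : Fin d → B) (c' : Chart k b' k) (𝒬' : Finset (Ideal B)),
      chartι k (Idx.single b') (zp c') ∈ U ∧ IsDec c'.ker 𝒬' ∧ 𝒬'.card = N + 1 := by
    intro N
    induction N with
    | zero =>
      refine ⟨b, c, {c.ker}, hc, IsDec.self ?_, Finset.card_singleton _⟩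
      intro htop
      have h3 := finrank_quot c
      have h4 : Subsingleton (B ⧸ c.ker) := Ideal.Quotient.subsingleton_iff.2 htop
      rw [Module.finrank_zero_of_subsingleton] at h3
      omega
    | succ N ih =>
      obtain ⟨b', c', 𝒬', hU', hdec, hcard⟩ := ih
      obtain ⟨Q, hQ, hQR⟩ := hcon b' c' 𝒬' hU' hdec
      have hfin := finite_quot c'
      have hle : Module.finrank k (B ⧸ Q) ≤ d := by
        have h1 := finrank_quot c'
        rw [← h1]
        exact LinearMap.finrank_le_finrank_of_surjective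
          (f := (Ideal.Quotient.factorₐ k (hdec.le hQ)).toLinearMap)
          (Ideal.Quotient.factor_surjective (hdec.le hQ))
      obtain ⟨b'', c'', 𝒬'', h1, h2, h3⟩ := step U hU c' hU' 𝒬' hdec Q hQ
        (hno _ hQR hle)
      exact ⟨b'', c'', 𝒬'', h1, h2, by rw [h3, hcard]⟩
  obtain ⟨b', c', 𝒬', -, hdec, hcard⟩ := key d
  have hfin := finite_quot c'
  have h1 := hdec.card_le (k := k)
  rw [finrank_quot] at h1
  omega

end Pool.Agent.N100.EL
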