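import Mathlib
import Pool.Agent.Helper226.RedPoint

/-! The dimension of the Hilbert scheme at the point of an ideal `I` is at most the dimension of
the tangent space `Hom (I, B / I)`. -/

set_option autoImplicit false

open scoped TensorProduct
open CategoryTheory AlgebraicGeometry

universe u

namespace Pool.Agent.N100.EL

open Pool.Agent.Helper226

variable {k : Type u} [Field k] {B : Type u} [CommRing B] [Algebra k B] {d : ℕ}

lemma quotEquiv_mk {b : Fin d → B} (c : Chart k b k) (x : B) :
    c.quotEquiv (Ideal.Quotient.mk c.ker x) = c.q x := rfl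

lemma quotEquiv_symm {b : Fin d → B} (c : Chart k b k) (v : Fin d → k) :
    c.quotEquiv.symm v = Ideal.Quotient.mk c.ker (∑ i, v i • b i) := by
  apply c.quotEquiv.injective
  rw [LinearEquiv.apply_symm_apply, quotEquiv_mk, map_sum]
  ext j
  simp [c.q_b, Pi.single_apply]

variable {R' : Type u} [CommRing R'] [Algebra k R']

lemma tan_rel {b : Fin d → B} (c0 : Chart k b k) (n : Ideal R')
    (hn : ∀ x ∈ n, ∀ y ∈ n, x * y = 0) (c : Chart k b R')
    (h0 : ∀ x j, c.q x j - algebraMap k R' (c0.q x j) ∈ n) {w : B} (hw : w ∈ c0.ker) (y : B)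
    (l : Fin d) :
    c.q (w * y) l = ∑ j, c.q w j * algebraMap k R' (c0.q (b j * y) l) := by
  rw [c.q_mul, Finset.sum_apply]
  refine Finset.sum_congr rfl fun j _ => ?_
  rw [Pi.smul_apply, smul_eq_mul]
  have h3 : c.q w j ∈ n := by
    have := h0 w j
    rwa [(Chart.mem_ker _ _).1 hw, Pi.zero_apply, map_zero, sub_zero] at this
  have h4 := hn _ h3 _ (h0 (b j * y) l)
  rw [mul_sub, sub_eq_zero] at h4
  exact h4

/-- the homomorphism `I → B / I` given by a first order deformation and a functional -/
noncomputable def homOf {b : Fin d → B} (c0 : Chart k b k) (n : Ideal R')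
    (hn : ∀ x ∈ n, ∀ y ∈ n, x * y = 0) (c : Chart k b R')
    (h0 : ∀ x j, c.q x j - algebraMap k R' (c0.q x j) ∈ n) (lam : R' →ₗ[k] k) :
    c0.ker →ₗ[B] (B ⧸ c0.ker) where
  toFun w := c0.quotEquiv.symm fun l => lam (c.q w.1 l)
  map_add' x y := by
    rw [← map_add]
    congr 1
    ext l
    simp
  map_smul' y x := by
    have h1 : (fun l => lam (c.q (y • x).1 l)) =
        fun l => ∑ j, lam (c.q x.1 j) * c0.q (b j * y) l := by
      ext l
      have h2 : ((y • x : c0.ker) : B) = x.1 * y := by
        rw [Submodule.coe_smul, smul_eq_mul, mul_comm]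
      rw [h2, tan_rel c0 n hn c h0 x.2 y l, map_sum]
      refine Finset.sum_congr rfl fun j _ => ?_
      rw [mul_comm, ← Algebra.smul_def, map_smul, smul_eq_mul, mul_comm]
    rw [h1, RingHom.id_apply]
    apply c0.quotEquiv.injective
    rw [LinearEquiv.apply_symm_apply, quotEquiv_symm]
    have h3 : y • Ideal.Quotient.mk c0.ker (∑ i, lam (c.q x.1 i) • b i) =
        Ideal.Quotient.mk c0.ker (∑ i, lam (c.q x.1 i) • (b i * y)) := by
      rw [Algebra.smul_def, Ideal.Quotient.algebraMap_eq, ← map_mul]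
      congr 1
      rw [Finset.mul_sum]
      refine Finset.sum_congr rfl fun j _ => ?_
      rw [mul_smul_comm, mul_comm]
    rw [h3, quotEquiv_mk, map_sum]
    ext l
    simp

lemma homOf_apply {b : Fin d → B} (c0 : Chart k b k) (n : Ideal R')
    (hn : ∀ x ∈ n, ∀ y ∈ n, x * y = 0) (c : Chart k b R')
    (h0 : ∀ x j, c.q x j - algebraMap k R' (c0.q x j) ∈ n) (lam : R' →ₗ[k] k) (w : c0.ker)
    (l : Fin d) :
    c0.quotEquiv (homOf c0 n hn c h0 lam w) l = lam (c.q w.1 l) := by
  change c0.quotEquiv (c0.quotEquiv.symm fun l => lam (c.q w.1 l)) l = _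
  rw [LinearEquiv.apply_symm_apply]

/-- the evaluation functionals on the tangent space -/
noncomputable def evTan {b : Fin d → B} (c0 : Chart k b k) (t : c0.ker × Fin d) :
    (c0.ker →ₗ[B] (B ⧸ c0.ker)) →ₗ[k] k where
  toFun φ := c0.quotEquiv (φ t.1) t.2
  map_add' φ ψ := by simp
  map_smul' a φ := by simp

theorem stalk_le_tan [Algebra.FiniteType k B] {b : Fin d → B} (c0 : Chart k b k)
    [Module.Finite k (c0.ker →ₗ[B] (B ⧸ c0.ker))] :
    ringKrullDim ((HilbS k B d).presheaf.stalk (chartι k (Idx.single b) (zp c0))) ≤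
      (Module.finrank k (c0.ker →ₗ[B] (B ⧸ c0.ker)) : WithBot ℕ∞) := by
  classical
  set V := c0.ker →ₗ[B] (B ⧸ c0.ker) with hV
  have hspan : Submodule.span k (Set.range (evTan c0)) = ⊤ := by
    apply Submodule.span_eq_top_of_ne_zero
    intro φ hφ
    by_contra hcon
    push Not at hcon
    apply hφ
    ext w : 1
    rw [LinearMap.zero_apply]
    apply c0.quotEquiv.injective
    ext l
    have := hcon (evTan c0 (w, l)) ⟨_, rfl⟩
    change c0.quotEquiv (φ w) l = 0 at this
    rw [this, map_zero, Pi.zero_apply]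
  obtain ⟨g, hg, hgs, -⟩ := Submodule.exists_fun_fin_finrank_span_eq k (Set.range (evTan c0))
  have hgs := hgs.trans hspan
  choose t ht using hg
  set z := clf c0 with hz
  have hzq : ∀ x j, z ((uc k b).q x j) = c0.q x j := by
    intro x j
    rw [← Chart.map_q, uc_map_clf]
  set m := RingHom.ker z with hm
  have hcard : Module.finrank k (Submodule.span k (Set.range (evTan c0))) =
      Module.finrank k V := by
    rw [hspan, finrank_top]
    exact Subspace.dual_finrank_eq
  let f : Fin (Module.finrank k (Submodule.span k (Set.range (evTan c0)))) → AR k b :=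
    fun i => (uc k b).q ((t i).1 : B) (t i).2
  have hf : ∀ i, z (f i) = 0 := by
    intro i
    change z ((uc k b).q ((t i).1 : B) (t i).2) = 0
    rw [hzq, (Chart.mem_ker _ _).1 (t i).1.2]
    rfl
  refine (stalk_le c0 f hf ?_).trans (by rw [Fintype.card_fin, hcard])
  let N : Ideal (AR k b) := Ideal.span (Set.range f) ⊔ m * m
  let φ : AR k b →ₐ[k] (AR k b ⧸ N) := Ideal.Quotient.mkₐ k N
  let ψ : AR k b →ₐ[k] (AR k b ⧸ N) := (Algebra.ofId k (AR k b ⧸ N)).comp z
  have hn : ∀ x ∈ m.map φ, ∀ y ∈ m.map φ, x * y = 0 := by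
    intro x hx y hy
    have h1 : x * y ∈ m.map φ * m.map φ := Ideal.mul_mem_mul hx hy
    rw [← Ideal.map_mul] at h1
    have h2 : (m * m).map φ ≤ ⊥ := by
      rw [Ideal.map_le_iff_le_comap]
      intro w hw
      rw [Ideal.mem_comap, Ideal.mem_bot]
      exact Ideal.Quotient.eq_zero_iff_mem.2 (Ideal.mem_sup_right hw)
    exact (Ideal.mem_bot).1 (h2 h1)
  have h0 : ∀ x j, ((uc k b).map φ).q x j - algebraMap k _ (c0.q x j) ∈ m.map φ := by
    intro x j
    rw [Chart.map_q, ← hzq, ← φ.commutes, ← map_sub]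
    apply Ideal.mem_map_of_mem
    rw [hm, RingHom.mem_ker, map_sub, z.commutes]
    simp
  have hker : ∀ w : c0.ker, ∀ l, ((uc k b).map φ).q w.1 l = 0 := by
    intro w l
    rw [← Module.forall_dual_apply_eq_zero_iff k]
    intro lam
    have hz0 : homOf c0 (m.map φ) hn ((uc k b).map φ) h0 lam = 0 := by
      have hall : ∀ L : V →ₗ[k] k, L (homOf c0 (m.map φ) hn ((uc k b).map φ) h0 lam) = 0 := by
        intro L
        have hL : L ∈ Submodule.span k (Set.range g) := by rw [hgs]; trivial
        induction hL using Submodule.span_induction with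
        | mem L hL =>
          obtain ⟨i, rfl⟩ := hL
          rw [← ht i]
          change c0.quotEquiv (homOf c0 (m.map φ) hn ((uc k b).map φ) h0 lam (t i).1) (t i).2 = 0
          rw [homOf_apply, Chart.map_q]
          have : φ (f i) = 0 := Ideal.Quotient.eq_zero_iff_mem.2
            (Ideal.mem_sup_left (Ideal.subset_span ⟨i, rfl⟩))
          change lam (φ (f i)) = 0
          rw [this, map_zero]
        | zero => simp
        | add L L' _ _ hL hL' => rw [LinearMap.add_apply, hL, hL', add_zero]
        | smul a L _ hL => rw [LinearMap.smul_apply, hL, smul_zero]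
      exact (Module.forall_dual_apply_eq_zero_iff k _).1 hall
    rw [← homOf_apply c0 (m.map φ) hn ((uc k b).map φ) h0 lam w l, hz0, LinearMap.zero_apply,
      map_zero, Pi.zero_apply]
  have hφψ : φ = ψ := by
    apply hom_ext_uc
    ext x j
    rw [Chart.map_q ((uc k b)) ψ]
    have h7 := hker ⟨x - ∑ i, c0.q x i • b i, by
      rw [Chart.mem_ker, map_sub, map_sum]
      ext l
      simp [c0.q_b, Pi.single_apply]⟩ j
    rw [map_sub, Pi.sub_apply, sub_eq_zero] at h7
    rw [h7, map_sum, Finset.sum_apply]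
    change _ = algebraMap k _ (z ((uc k b).q x j))
    rw [hzq]
    simp only [map_smul, Pi.smul_apply, ((uc k b).map φ).q_b, Pi.single_apply]
    simp [Algebra.smul_def]
  intro x hx
  have : φ x = 0 := by
    rw [hφψ]
    change algebraMap k _ (z x) = 0
    rw [RingHom.mem_ker.1 hx, map_zero]
  exact Ideal.Quotient.eq_zero_iff_mem.1 this

end Pool.Agent.N100.EL
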