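import Mathlib
import Pool.Agent.N100.EL.Step
import Pool.Agent.N100.EL.Tan
import Pool.Agent.N100.EL.Gens
import Pool.Agent.Y97.VC3.Main
import Pool.Agent.Helper413.Gal.Uniq

/-! Elementary components of the Hilbert schemes of points of affine 3-space of arbitrarily large
length. -/

set_option autoImplicit false

open scoped TensorProduct
open CategoryTheory AlgebraicGeometry MvPolynomial

universe u

namespace Pool.Agent.N100.EL

open Pool.Agent.Helper226 Pool.Agent.Y97.VC3

variable {k : Type u} [Field k]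

/-- the dimension at a point all of whose pieces are small -/
theorem stalk_le_of_small {n d : ℕ} {b : Fin d → MvPolynomial (Fin n) k} (c : Chart k b k)
    (𝒬 : Finset (Ideal (MvPolynomial (Fin n) k))) (h : IsDec c.ker 𝒬) (R : ℕ)
    (hR : ∀ Q ∈ 𝒬, Module.finrank k (MvPolynomial (Fin n) k ⧸ Q) ≤ R) :
    ringKrullDim ((HilbS k (MvPolynomial (Fin n) k) d).presheaf.stalk
      (chartι k (Idx.single b) (zp c))) ≤ (((n * R + 1) * d : ℕ) : WithBot ℕ∞) := by
  classical
  have hfin := finite_quot c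
  have hf : ∀ Q : {Q // Q ∈ 𝒬}, Module.Finite k (MvPolynomial (Fin n) k ⧸ Q.1) :=
    fun Q => finite_of_le (h.le Q.2)
  choose g hg using fun Q : {Q // Q ∈ 𝒬} => exists_gens (k := k) Q.1
  obtain ⟨h1, h2⟩ := hom_bound (k := k) (fun Q : {Q // Q ∈ 𝒬} => Q.1) h.pairwise c.ker h.iInf
    (fun Q => Option (Fin n × Fin (Module.finrank k (MvPolynomial (Fin n) k ⧸ Q.1)))) g hg
  refine (stalk_le_tan c).trans ?_
  have h3 : Module.finrank k (c.ker →ₗ[MvPolynomial (Fin n) k]
      (MvPolynomial (Fin n) k ⧸ c.ker)) ≤ (n * R + 1) * d := by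
    refine h2.trans ?_
    have h4 := h.finrank_eq (k := k)
    rw [finrank_quot] at h4
    have h5 : (n * R + 1) * d = ∑ Q : {Q // Q ∈ 𝒬},
        (n * R + 1) * Module.finrank k (MvPolynomial (Fin n) k ⧸ Q.1) := by
      rw [← Finset.mul_sum, Finset.sum_coe_sort 𝒬
        (fun Q => Module.finrank k (MvPolynomial (Fin n) k ⧸ Q)), ← h4]
    rw [h5]
    refine Finset.sum_le_sum fun Q _ => ?_
    apply Nat.mul_le_mul_right
    simp only [Fintype.card_option, Fintype.card_prod, Fintype.card_fin]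
    exact Nat.succ_le_succ (Nat.mul_le_mul_left _ (hR Q.1 Q.2))
  exact_mod_cast h3

/-- a `k`-point in a nonempty open subset of a chart -/
lemma exists_point [IsAlgClosed k] {B : Type u} [CommRing B] [Algebra k B] [Algebra.FiniteType k B]
    {d : ℕ} (b : Fin d → B) (O : Set (Spec (CommRingCat.of (AR k b)))) (hO : IsOpen O)
    (hne : O.Nonempty) : ∃ c : Chart k b k, zp c ∈ O := by
  have hft := univ_finiteType (k := k) (Idx.single b)
  have hJ : JacobsonSpace (PrimeSpectrum (AR k b)) :=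
    PrimeSpectrum.isJacobsonRing_iff_jacobsonSpace.1 (isJacobsonRing_of_finiteType (A := k))
  obtain ⟨M, hMO, hMc⟩ := @nonempty_inter_closedPoints (PrimeSpectrum (AR k b)) _ hJ O hne
    hO.isLocallyClosed
  have hM : M.asIdeal.IsMaximal := (PrimeSpectrum.isClosed_singleton_iff_isMaximal M).1 hMc
  obtain ⟨g, hg⟩ := exists_hom_of_maximal (k := k) M.asIdeal hM
  refine ⟨(uc k b).map g, ?_⟩
  have h1 : clf ((uc k b).map g) = g := by
    apply hom_ext_uc
    rw [uc_map_clf]
  have h2 : zp ((uc k b).map g) = M := by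
    apply PrimeSpectrum.ext
    rw [zp_asIdeal, h1, hg]
  rw [h2]
  exact hMO

lemma numeric3 (K : ℕ) (hK : 1 ≤ K) :
    K * ((4 * K + 2).choose 3 + 4 * K ^ 2) <
      ((4 * K + 2).choose 2 - 4 * K ^ 2) * (4 * K ^ 2) ∧
      (4 * K + 2).choose 3 + 4 * K ^ 2 ≤ 24 * K ^ 3 := by
  have e1 : (4 * K + 2).choose 3 * 3 = (4 * K + 2).choose 2 * (4 * K) := by
    have := Nat.choose_succ_right_eq (4 * K + 2) 2
    simpa using this
  have e2 : (4 * K + 2).choose 2 * 2 = (4 * K + 2) * (4 * K + 1) := by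
    have := Nat.choose_succ_right_eq (4 * K + 2) 1
    simpa using this
  have e3 : (4 * K + 2).choose 2 = 8 * K ^ 2 + 6 * K + 1 := by nlinarith
  rw [e3] at e1 ⊢
  have e4 : 8 * K ^ 2 + 6 * K + 1 - 4 * K ^ 2 = 4 * K ^ 2 + 6 * K + 1 := by omega
  rw [e4]
  set c := (4 * K + 2).choose 3
  constructor
  · have h1 : 3 * (K * (c + 4 * K ^ 2)) < 3 * ((4 * K ^ 2 + 6 * K + 1) * (4 * K ^ 2)) := by
      have h2 : 3 * (K * (c + 4 * K ^ 2)) = K * (c * 3 + 12 * K ^ 2) := by ring
      rw [h2, e1]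
      have h3 : 0 < K ^ 2 := by positivity
      have h4 : 0 < K ^ 3 := by positivity
      nlinarith [h3, h4, Nat.zero_le (K ^ 4)]
    omega
  · have h1 : 3 * (c + 4 * K ^ 2) ≤ 3 * (24 * K ^ 3) := by
      have h2 : 3 * (c + 4 * K ^ 2) = c * 3 + 12 * K ^ 2 := by ring
      rw [h2, e1]
      have h5 : K ^ 2 ≤ K ^ 3 := Nat.pow_le_pow_right hK (by norm_num)
      have h6 : K ≤ K ^ 3 := by
        calc K = K ^ 1 := (pow_one K).symm
          _ ≤ K ^ 3 := Nat.pow_le_pow_right hK (by norm_num)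
      nlinarith
    omega

theorem main (k : Type u) [Field k] [IsAlgClosed k] (R : ℕ) :
    ∃ r, R < r ∧ r ≤ 24 * (3 * R + 1) ^ 3 ∧
      ∃ C ∈ irreducibleComponents (HilbS k (MvPolynomial (Fin 3) k) r),
        GenPunctual (hilb k (MvPolynomial (Fin 3) k) r) C := by
  by_contra hcon
  push Not at hcon
  set K := 3 * R + 1 with hK
  obtain ⟨T, hT, hTr⟩ := Finset.exists_subset_card_eq
    (le_card_Od (4 * K) (4 * K ^ 2) (by ring_nf; exact le_rfl))
  obtain ⟨d, hdd⟩ : ∃ d, d = (4 * K + 2).choose 3 + T.card := ⟨_, rfl⟩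
  have hd := hdd.symm
  obtain ⟨hnum1, hnum2⟩ := numeric3 K (by omega)
  have hd' : d = (4 * K + 2).choose 3 + 4 * K ^ 2 := by rw [hdd, hTr]
  rw [← hd'] at hnum1 hnum2
  have hz := DD_z hT hd (by omega)
  set D := DD hT hd with hD
  have hs1 : 1 ≤ 4 * K := by omega
  have hirr := famCl_irreducible D k 2 hz hs1
  have hdim := famCl_dim D k 2 hz hs1
  have hmeet := famCl_meets D k 2 hz hs1
  obtain ⟨C, hC, hsub⟩ := exists_mem_irreducibleComponents_subset_of_isIrreducible _ hirr
  have hCcl : IsClosed C := isClosed_of_mem_irreducibleComponents C hC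
  have := noetherianSpace_chart (k := k) (mb k D.e)
  obtain ⟨O, hO, hOne, hOC⟩ := exists_open_subset_component
    (chartι k (Idx.single (mb k D.e))) (chartι k (Idx.single (mb k D.e))).isOpenEmbedding C hC
    (hmeet.mono (Set.inter_subset_inter_left _ hsub))
  obtain ⟨c, hc⟩ := exists_point (mb k D.e) O hO hOne
  have hd0 : 0 < d := by
    rw [hd']
    have : 0 < K ^ 2 := by positivity
    omega
  obtain ⟨b', c', 𝒬, hU', hdec, hsmall⟩ := exists_small
    (chartι k (Idx.single (mb k D.e)) '' O)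
    ((chartι k (Idx.single (mb k D.e))).isOpenEmbedding.isOpenMap _ hO) c ⟨_, hc, rfl⟩ R hd0
    (fun r hr hrd => hcon r hr (hrd.trans hnum2))
  have h1 := topDim_le_stalk (HilbS k (MvPolynomial (Fin 3) k) d)
    (HilbS.str k (MvPolynomial (Fin 3) k) d) C hCcl hC.1 _ (hOC hU') (isClosed_chartι_zp c')
  have h2 := stalk_le_of_small c' 𝒬 hdec R hsmall
  have h3 : topologicalKrullDim (famCl D k 2 hz hs1) ≤ topologicalKrullDim C :=
    (Topology.IsEmbedding.inclusion hsub).isInducing.topologicalKrullDim_le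
  have h4 := hdim.trans (h3.trans (h1.trans h2))
  have h5 : Fintype.card (NI D) * Fintype.card (EI D) ≤ (3 * R + 1) * d := by exact_mod_cast h4
  have h6 := card_NI D (by norm_num)
  have h7 : Fintype.card (EI D) = 4 * K ^ 2 := by rw [hD, card_EI hT hd, hTr]
  have h8 : (4 * K + 3 - 1).choose (3 - 1) = (4 * K + 2).choose 2 := by
    rw [show 4 * K + 3 - 1 = 4 * K + 2 by omega]
  rw [h8, h7] at h6
  have h9 : Fintype.card (NI D) = (4 * K + 2).choose 2 - 4 * K ^ 2 := by omega
  rw [h9, h7, ← hK] at h5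
  omega

end Pool.Agent.N100.EL
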